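import Pool.Agent.U319.FR.Stm

/-!
# Frog model on the 4-ary tree: job AVG

The expected number of visits found by the exploration is at most the value of the start.
-/

set_option autoImplicit false

open scoped ENNReal
open Finset MeasureTheory ProbabilityTheory

namespace Pool.Agent.U50.FR

open Pool.Agent.U319.FR

/-- Number of the frogs of the list at `x`. -/
def nf (q : List (Vx × Vx × ℕ)) (x : Vx) : ℕ := q.countP fun e => decide (e.2.1 = x)

/-- Configuration of a state of the exploration. -/
def cf (t : Ex) : Cf := ⟨fun x => nf t.q x, {x | x ∈ t.vis}⟩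

lemma nf_cons (w z : Vx) (k : ℕ) (q : List (Vx × Vx × ℕ)) (x : Vx) :
    nf ((w, z, k) :: q) x = nf q x + dl z 1 x := by
  unfold nf dl
  rw [List.countP_cons]
  by_cases h : x = z
  · subst h; simp
  · have h' : ¬ z = x := fun h' => h h'.symm
    simp [h, h']

lemma adv_cf (n : ℕ) (w z z' : Vx) (k : ℕ) (q : List (Vx × Vx × ℕ)) (vis : List Vx) (cn : ℕ) :
    cf (adv n w k z' q vis cn) = arr n z' (rmv z (cf ⟨(w, z, k) :: q, vis, cn⟩)) := by
  have h0 : ∀ x, nf ((w, z, k) :: q) x - dl z 1 x = nf q x := by
    intro x; rw [nf_cons]; omega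
  by_cases h1 : n ≤ z'.length
  · simp only [adv, arr, h1, if_true, cf, rmv]
    ext x
    · exact (h0 x).symm
    · rfl
  · by_cases h2 : z' ∈ vis
    · have h2' : z' ∈ {x | x ∈ vis} := h2
      simp only [adv, arr, h1, if_false, h2, if_true, cf, rmv, h2']
      ext x
      · simp only [nf_cons] at h0 ⊢
        have := h0 x
        omega
      · rfl
    · have h2' : ¬ z' ∈ {x | x ∈ vis} := h2
      simp only [adv, arr, h1, if_false, h2, cf, rmv, h2']
      ext x
      · simp only [nf_cons]
        have hd : dl z' 2 x = dl z' 1 x + dl z' 1 x := by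
          unfold dl; split_ifs <;> rfl
        rw [hd]
        omega
      · simp [Set.mem_insert_iff]

lemma adv_cn (n : ℕ) (w z' : Vx) (k : ℕ) (q : List (Vx × Vx × ℕ)) (vis : List Vx) (cn : ℕ) :
    (adv n w k z' q vis cn).cn ≤ cn + if z' = [] then 1 else 0 := by
  unfold adv
  split_ifs <;> simp

/-- The exploration does not use the step `(w, k)` if `w` is woken and every frog `w` on the move
has made more than `k` steps. -/
lemma expl_congr {n L : ℕ} {x x' : Vx → ℕ → Fin 4 × Fin 5} {w : Vx} {k : ℕ}
    (hx : ∀ w' k', (w', k') ≠ (w, k) → x w' k' = x' w' k') :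
    ∀ (m : ℕ) (t : Ex), w ∈ t.vis → (∀ e ∈ t.q, e.1 = w → k < e.2.2) →
      expl n L x m t = expl n L x' m t := by
  intro m
  induction m with
  | zero => intro t _ _; rfl
  | succ m ih =>
    rintro ⟨q, vis, cn⟩ hw hq
    rcases q with _ | ⟨⟨w1, z1, k1⟩, q⟩
    · rfl
    · simp only [expl]
      by_cases hL : L ≤ k1
      · simp only [hL, if_true]
        exact ih _ hw (fun e he => hq e (List.mem_cons_of_mem _ he))
      · simp only [hL, if_false]
        have hne : (w1, k1) ≠ (w, k) := by
          intro h
          have h1 : w1 = w := (Prod.mk.inj h).1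
          have h2 : k1 = k := (Prod.mk.inj h).2
          have := hq (w1, z1, k1) List.mem_cons_self h1
          simp only at this
          omega
        rw [hx w1 k1 hne]
        have hhead : w1 = w → k < k1 := fun h => hq (w1, z1, k1) List.mem_cons_self h
        have htail : ∀ e ∈ q, e.1 = w → k < e.2.2 :=
          fun e he => hq e (List.mem_cons_of_mem _ he)
        generalize stp z1 (x' w1 k1) = z'
        by_cases h1 : n ≤ z'.length
        · simp only [adv, h1, if_true]
          exact ih _ hw htail
        · by_cases h2 : z' ∈ vis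
          · simp only [adv, h1, if_false, h2, if_true]
            refine ih _ hw ?_
            intro e he h
            rcases List.mem_cons.1 he with rfl | he
            · have := hhead h
              simp only
              omega
            · exact htail e he h
          · simp only [adv, h1, if_false, h2]
            refine ih _ (List.mem_cons_of_mem _ hw) ?_
            intro e he h
            rcases List.mem_cons.1 he with rfl | he
            · have := hhead h
              simp only
              omega
            · rcases List.mem_cons.1 he with rfl | he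
              · simp only at h
                exact absurd (h ▸ hw) h2
              · exact htail e he h

lemma expl_meas {Ω : Type} [MeasurableSpace Ω] {n L : ℕ} (y : Vx → ℕ → Ω → Fin 4 × Fin 5)
    (hy : ∀ w k, Measurable (y w k)) :
    ∀ (m : ℕ) (t : Ex),
      Measurable (fun ω => ((expl n L (fun w k => y w k ω) m t).cn : ℝ≥0∞)) := by
  intro m
  induction m with
  | zero => intro t; simp only [expl]; exact measurable_const
  | succ m ih =>
    rintro ⟨q, vis, cn⟩
    rcases q with _ | ⟨⟨w1, z1, k1⟩, q⟩
    · simp only [expl]; exact measurable_const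
    · simp only [expl]
      by_cases hL : L ≤ k1
      · simp only [hL, if_true]
        exact ih _
      · simp only [hL, if_false]
        have h1 : Measurable (fun p : (Fin 4 × Fin 5) × Ω =>
            ((expl n L (fun w k => y w k p.2) m (adv n w1 k1 (stp z1 p.1) q vis cn)).cn : ℝ≥0∞)) :=
          measurable_from_prod_countable_right
            (fun a => ih (adv n w1 k1 (stp z1 a) q vis cn))
        exact h1.comp ((hy w1 k1).prodMk measurable_id)

lemma c20 : (20 : ℝ≥0∞) * (1 / 20) = 1 := by
  rw [one_div, ENNReal.mul_inv_cancel] <;> norm_num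

lemma c5 : (5 : ℝ≥0∞) * (1 / 20) = 1 / 4 := by
  rw [← ENNReal.toReal_eq_toReal_iff' (by finiteness) (by finiteness)]
  rw [ENNReal.toReal_mul, ENNReal.toReal_div, ENNReal.toReal_div]
  norm_num

lemma c4 : (4 : ℝ≥0∞) * (1 / 20) = 1 / 5 := by
  rw [← ENNReal.toReal_eq_toReal_iff' (by finiteness) (by finiteness)]
  rw [ENNReal.toReal_mul, ENNReal.toReal_div, ENNReal.toReal_div]
  norm_num

/-- The average over one step is `mv`. -/
lemma step_avg (n : ℕ) (g : Cf → ℝ≥0∞) (z : Vx) (η : Cf) :
    ∑ a : Fin 4 × Fin 5, (1 / 20 : ℝ≥0∞) * ((if stp z a = [] then 1 else 0) +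
      g (arr n (stp z a) (rmv z η))) = mv n g z η := by
  rw [Fintype.sum_prod_type]
  rcases z with _ | ⟨i, p⟩
  · simp only [stp, if_true, mv]
    refine Finset.sum_congr rfl fun j _ => ?_
    simp only [List.cons_ne_nil, if_false, zero_add, Finset.sum_const, Finset.card_univ,
      Fintype.card_fin, nsmul_eq_mul]
    rw [← mul_assoc]
    have : ((5 : ℕ) : ℝ≥0∞) = 5 := by norm_num
    rw [this, c5]
  · have h1 : ∀ j : Fin 4, ∑ b : Fin 5, (1 / 20 : ℝ≥0∞) *
        ((if stp (i :: p) (j, b) = [] then 1 else 0) +
          g (arr n (stp (i :: p) (j, b)) (rmv (i :: p) η))) =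
        (1 / 20) * ((if p = [] then 1 else 0) + g (arr n p (rmv (i :: p) η))) +
          4 * (1 / 20) * g (arr n (j :: i :: p) (rmv (i :: p) η)) := by
      intro j
      rw [Fin.sum_univ_succ]
      congr 1
      have : ∀ b : Fin 4, (1 / 20 : ℝ≥0∞) * ((if stp (i :: p) (j, b.succ) = [] then 1 else 0) +
          g (arr n (stp (i :: p) (j, b.succ)) (rmv (i :: p) η))) =
          (1 / 20) * g (arr n (j :: i :: p) (rmv (i :: p) η)) := by
        intro b
        have hb : b.succ ≠ 0 := Fin.succ_ne_zero b
        simp [stp, hb]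
      rw [Finset.sum_congr rfl fun b _ => this b]
      simp only [Finset.sum_const, Finset.card_univ, Fintype.card_fin, nsmul_eq_mul]
      rw [← mul_assoc]
      norm_num
    rw [Finset.sum_congr rfl fun j _ => h1 j, Finset.sum_add_distrib]
    simp only [mv, c4]
    congr 1
    simp only [Finset.sum_const, Finset.card_univ, Fintype.card_fin, nsmul_eq_mul]
    rw [← mul_assoc]
    have : ((4 : ℕ) : ℝ≥0∞) = 4 := by norm_num
    rw [this, c4]

lemma ind_meas {Ω : Type} [MeasurableSpace Ω] {s : Set Ω} (hs : MeasurableSet s) :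
    Measurable (s.indicator (fun _ => (1 : ℝ≥0∞))) := measurable_const.indicator hs

/-- The expectation over one fresh step. -/
lemma fresh_step {Ω : Type} [mΩ : MeasurableSpace Ω] (P : Measure Ω) [IsProbabilityMeasure P]
    (ξ : Vx → ℕ → Ω → Fin 4 × Fin 5) (hξ : ∀ v k, Measurable (ξ v k))
    (hind : iIndepFun (fun p : Vx × ℕ => ξ p.1 p.2) P)
    (hlaw : ∀ v k (c : Fin 4 × Fin 5), P (ξ v k ⁻¹' {c}) = 1 / 20) (n L m : ℕ) (w : Vx) (k : ℕ)
    (T : Fin 4 × Fin 5 → Ex) (hT1 : ∀ a, w ∈ (T a).vis)
    (hT2 : ∀ a, ∀ e ∈ (T a).q, e.1 = w → k < e.2.2) :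
    ∫⁻ ω, ((expl n L (fun w k => ξ w k ω) m (T (ξ w k ω))).cn : ℝ≥0∞) ∂P =
      ∑ a : Fin 4 × Fin 5, (1 / 20 : ℝ≥0∞) *
        ∫⁻ ω, ((expl n L (fun w k => ξ w k ω) m (T a)).cn : ℝ≥0∞) ∂P := by
  classical
  -- the process without the step `(w, k)`
  set y : Vx → ℕ → Ω → Fin 4 × Fin 5 := fun w' k' ω =>
    if (w', k') = (w, k) then default else ξ w' k' ω with hy
  set M : Vx × ℕ → MeasurableSpace Ω := fun p => MeasurableSpace.comap (ξ p.1 p.2) inferInstance
    with hM
  have hMle : ∀ p, M p ≤ mΩ := fun p => (hξ p.1 p.2).comap_le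
  have hI : iIndep M P := hind.iIndep
  have hI2 : Indep (⨆ p ∈ ({(w, k)} : Set (Vx × ℕ)), M p)
      (⨆ p ∈ ({(w, k)}ᶜ : Set (Vx × ℕ)), M p) P :=
    indep_iSup_of_disjoint hMle hI disjoint_compl_right
  have hG : ∀ a ω, ((expl n L (fun w k => ξ w k ω) m (T a)).cn : ℝ≥0∞) =
      ((expl n L (fun w k => y w k ω) m (T a)).cn : ℝ≥0∞) := by
    intro a ω
    rw [expl_congr (x := fun w k => ξ w k ω) (x' := fun w k => y w k ω) (w := w) (k := k) ?_ m (T a)
      (hT1 a) (hT2 a)]
    intro w' k' h
    simp only [hy, h, if_false]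
  have hymeas : ∀ w' k', Measurable[⨆ p ∈ ({(w, k)}ᶜ : Set (Vx × ℕ)), M p] (y w' k') := by
    intro w' k'
    by_cases h : (w', k') = (w, k)
    · have : y w' k' = fun _ => default := by
        funext ω; simp only [hy, h, if_true]
      rw [this]
      exact @measurable_const _ _ _ _ _
    · have : y w' k' = ξ w' k' := by
        funext ω; simp only [hy, h, if_false]
      rw [this]
      have h1 : M (w', k') ≤ ⨆ p ∈ ({(w, k)}ᶜ : Set (Vx × ℕ)), M p :=
        le_iSup₂_of_le (w', k') h le_rfl
      exact (comap_measurable (ξ w' k')).mono h1 le_rfl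
  have hGm : ∀ a, Measurable[⨆ p ∈ ({(w, k)}ᶜ : Set (Vx × ℕ)), M p]
      (fun ω => ((expl n L (fun w k => y w k ω) m (T a)).cn : ℝ≥0∞)) :=
    fun a => @expl_meas Ω (⨆ p ∈ ({(w, k)}ᶜ : Set (Vx × ℕ)), M p) n L y hymeas m (T a)
  have hle2 : (⨆ p ∈ ({(w, k)}ᶜ : Set (Vx × ℕ)), M p) ≤ mΩ :=
    iSup₂_le fun p _ => hMle p
  have hle1 : (⨆ p ∈ ({(w, k)} : Set (Vx × ℕ)), M p) ≤ mΩ :=
    iSup₂_le fun p _ => hMle p
  have hfm : ∀ a : Fin 4 × Fin 5, Measurable[⨆ p ∈ ({(w, k)} : Set (Vx × ℕ)), M p]
      ((ξ w k ⁻¹' {a}).indicator (fun _ => (1 : ℝ≥0∞))) := by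
    intro a
    have h1 : M (w, k) ≤ ⨆ p ∈ ({(w, k)} : Set (Vx × ℕ)), M p :=
      le_iSup₂_of_le (w, k) rfl le_rfl
    exact @ind_meas Ω (⨆ p ∈ ({(w, k)} : Set (Vx × ℕ)), M p) _
      (h1 _ ⟨{a}, measurableSet_singleton a, rfl⟩)
  have hsum : ∀ ω, ((expl n L (fun w k => ξ w k ω) m (T (ξ w k ω))).cn : ℝ≥0∞) =
      ∑ a : Fin 4 × Fin 5, (ξ w k ⁻¹' {a}).indicator (fun _ => (1 : ℝ≥0∞)) ω *
        ((expl n L (fun w k => y w k ω) m (T a)).cn : ℝ≥0∞) := by
    intro ω
    rw [Finset.sum_eq_single (ξ w k ω)]
    · rw [Set.indicator_of_mem (by simp), one_mul, ← hG]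
    · intro b _ hb
      rw [Set.indicator_of_notMem, zero_mul]
      intro h
      exact hb (by simpa using h.symm)
    · intro h; exact absurd (Finset.mem_univ _) h
  rw [lintegral_congr hsum, lintegral_finsetSum]
  · refine Finset.sum_congr rfl fun a _ => ?_
    rw [lintegral_mul_eq_lintegral_mul_lintegral_of_independent_measurableSpace hle1 hle2 hI2
      (hfm a) (hGm a)]
    congr 1
    · rw [lintegral_indicator_const, one_mul, hlaw]
      exact hξ w k (measurableSet_singleton a)
    · exact lintegral_congr fun ω => (hG a ω).symm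
  · intro a _
    exact ((hfm a).mono hle1 le_rfl).mul ((hGm a).mono hle2 le_rfl)

/-- The claim for all states. -/
lemma main (hMono : S_VMONO) (hUp : S_VUP) {Ω : Type} [MeasurableSpace Ω] (P : Measure Ω)
    [IsProbabilityMeasure P]
    (ξ : Vx → ℕ → Ω → Fin 4 × Fin 5) (hξ : ∀ v k, Measurable (ξ v k))
    (hind : iIndepFun (fun p : Vx × ℕ => ξ p.1 p.2) P)
    (hlaw : ∀ v k (c : Fin 4 × Fin 5), P (ξ v k ⁻¹' {c}) = 1 / 20) (n L : ℕ) :
    ∀ (m : ℕ) (t : Ex), (t.q.map Prod.fst).Nodup → (∀ e ∈ t.q, e.1 ∈ t.vis) →
      ∫⁻ ω, ((expl n L (fun w k => ξ w k ω) m t).cn : ℝ≥0∞) ∂P ≤ t.cn + V n m (cf t) := by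
  intro m
  induction m with
  | zero =>
    intro t _ _
    simp [expl, V]
  | succ m ih =>
    rintro ⟨q, vis, cn⟩ hnd hv
    rcases q with _ | ⟨⟨w, z, k⟩, q⟩
    · simp only [expl, lintegral_const, measure_univ, mul_one]
      exact le_self_add
    · have hnd' : (q.map Prod.fst).Nodup := by
        simp only [List.map_cons, List.nodup_cons] at hnd; exact hnd.2
      have hwq : w ∉ q.map Prod.fst := by
        simp only [List.map_cons, List.nodup_cons] at hnd; exact hnd.1
      have hvq : ∀ e ∈ q, e.1 ∈ vis := fun e he => hv e (List.mem_cons_of_mem _ he)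
      have hwv : w ∈ vis := hv (w, z, k) List.mem_cons_self
      have hpos : 0 < (cf ⟨(w, z, k) :: q, vis, cn⟩).cnt z := by
        simp [cf, nf_cons, dl]
      by_cases hL : L ≤ k
      · simp only [expl, hL, if_true]
        refine (ih ⟨q, vis, cn⟩ hnd' hvq).trans ?_
        refine add_le_add le_rfl ?_
        refine (hUp n m _).trans (hMono n (m + 1) _ _ ⟨?_, ?_⟩)
        · intro x
          simp only [cf, nf_cons]
          exact Nat.le_add_right _ _
        · exact subset_rfl
      · simp only [expl, hL, if_false]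
        -- the next states
        have hT1 : ∀ a : Fin 4 × Fin 5, w ∈ (adv n w k (stp z a) q vis cn).vis := by
          intro a
          by_cases h1 : n ≤ (stp z a).length
          · simp only [adv, h1, if_true]; exact hwv
          · by_cases h2 : stp z a ∈ vis
            · simp only [adv, h1, if_false, h2, if_true]; exact hwv
            · simp only [adv, h1, if_false, h2]; exact List.mem_cons_of_mem _ hwv
        have hT2 : ∀ a : Fin 4 × Fin 5, ∀ e ∈ (adv n w k (stp z a) q vis cn).q,
            e.1 = w → k < e.2.2 := by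
          intro a e he hew
          have hq : e ∈ q → k < e.2.2 := fun h =>
            absurd (List.mem_map.2 ⟨e, h, hew⟩) hwq
          by_cases h1 : n ≤ (stp z a).length
          · simp only [adv, h1, if_true] at he; exact hq he
          · by_cases h2 : stp z a ∈ vis
            · simp only [adv, h1, if_false, h2, if_true] at he
              rcases List.mem_cons.1 he with rfl | he
              · exact Nat.lt_succ_self k
              · exact hq he
            · simp only [adv, h1, if_false, h2] at he
              rcases List.mem_cons.1 he with rfl | he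
              · exact Nat.lt_succ_self k
              · rcases List.mem_cons.1 he with rfl | he
                · simp only at hew
                  exact absurd (hew ▸ hwv) h2
                · exact hq he
        have hI1 : ∀ a : Fin 4 × Fin 5,
            ((adv n w k (stp z a) q vis cn).q.map Prod.fst).Nodup := by
          intro a
          by_cases h1 : n ≤ (stp z a).length
          · simp only [adv, h1, if_true]; exact hnd'
          · by_cases h2 : stp z a ∈ vis
            · simp only [adv, h1, if_false, h2, if_true, List.map_cons, List.nodup_cons]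
              exact ⟨hwq, hnd'⟩
            · simp only [adv, h1, if_false, h2, List.map_cons, List.nodup_cons, List.mem_cons]
              refine ⟨?_, ?_, hnd'⟩
              · rintro (h | h)
                · exact h2 (h ▸ hwv)
                · exact hwq h
              · intro h
                rcases List.mem_map.1 h with ⟨e, he, hee⟩
                exact h2 (hee ▸ hvq e he)
        have hI2 : ∀ a : Fin 4 × Fin 5, ∀ e ∈ (adv n w k (stp z a) q vis cn).q,
            e.1 ∈ (adv n w k (stp z a) q vis cn).vis := by
          intro a e he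
          by_cases h1 : n ≤ (stp z a).length
          · simp only [adv, h1, if_true] at he ⊢; exact hvq e he
          · by_cases h2 : stp z a ∈ vis
            · simp only [adv, h1, if_false, h2, if_true] at he ⊢
              rcases List.mem_cons.1 he with rfl | he
              · exact hwv
              · exact hvq e he
            · simp only [adv, h1, if_false, h2] at he ⊢
              rcases List.mem_cons.1 he with rfl | he
              · exact List.mem_cons_of_mem _ hwv
              · rcases List.mem_cons.1 he with rfl | he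
                · exact List.mem_cons_self
                · exact List.mem_cons_of_mem _ (hvq e he)
        rw [fresh_step P ξ hξ hind hlaw n L m w k (fun a => adv n w k (stp z a) q vis cn) hT1 hT2]
        calc ∑ a : Fin 4 × Fin 5, (1 / 20 : ℝ≥0∞) *
              ∫⁻ ω, ((expl n L (fun w k => ξ w k ω) m
                (adv n w k (stp z a) q vis cn)).cn : ℝ≥0∞) ∂P
            ≤ ∑ a : Fin 4 × Fin 5, (1 / 20 : ℝ≥0∞) * ((cn : ℝ≥0∞) +
                ((if stp z a = [] then 1 else 0) +
                  V n m (arr n (stp z a) (rmv z (cf ⟨(w, z, k) :: q, vis, cn⟩))))) := by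
              refine Finset.sum_le_sum fun a _ => ?_
              gcongr
              refine (ih _ (hI1 a) (hI2 a)).trans ?_
              rw [adv_cf, ← add_assoc]
              gcongr
              have h := adv_cn n w (stp z a) k q vis cn
              calc ((adv n w k (stp z a) q vis cn).cn : ℝ≥0∞)
                  ≤ ((cn + if stp z a = [] then 1 else 0 : ℕ) : ℝ≥0∞) := by exact_mod_cast h
                _ = (cn : ℝ≥0∞) + (if stp z a = [] then 1 else 0) := by
                  push_cast; split_ifs <;> rfl
          _ = (cn : ℝ≥0∞) + mv n (V n m) z (cf ⟨(w, z, k) :: q, vis, cn⟩) := by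
              rw [← step_avg]
              simp only [mul_add (1 / 20 : ℝ≥0∞) (cn : ℝ≥0∞), Finset.sum_add_distrib]
              congr 1
              simp only [Finset.sum_const, Finset.card_univ, Fintype.card_prod, Fintype.card_fin,
                nsmul_eq_mul]
              rw [← mul_assoc]
              have : ((4 * 5 : ℕ) : ℝ≥0∞) = 20 := by norm_num
              rw [this, c20, one_mul]
          _ ≤ (cn : ℝ≥0∞) + V n (m + 1) (cf ⟨(w, z, k) :: q, vis, cn⟩) := by
              gcongr
              exact le_iSup₂_of_le (f := fun (u : Vx)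
                (_ : 0 < (cf ⟨(w, z, k) :: q, vis, cn⟩).cnt u) =>
                  mv n (V n m) u (cf ⟨(w, z, k) :: q, vis, cn⟩)) z hpos le_rfl

/-- Job AVG. -/
theorem t_AVG : S_VMONO → S_VUP → S_AVG := by
  intro hMono hUp Ω _ P _ ξ hξ hind hlaw n L m _
  have h := main hMono hUp P ξ hξ hind hlaw n L m ex0 (by simp [ex0]) (by simp [ex0])
  have hst : cf ex0 = start := by
    unfold cf ex0 start
    ext x
    · simp only [nf_cons]
      simp [nf]
    · simp
  rw [hst] at h
  simpa [ex0] using h

end Pool.Agent.U50.FR
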